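import Pool.Agent.Helper681.NS3

/-!
No `n`-Steinhaus set for the integer lattice has the property of Baire; in particular none is Borel.
-/

set_option autoImplicit false

namespace Pool.Agent.Results.MP_b9430d_co.BaireProperty

/-- The integer lattice in the plane `ℂ`. -/
def Z2 : Set ℂ := {z | ∃ m k : ℤ, z = (m : ℂ) + (k : ℂ) * Complex.I}

/-- `E` is an `n`-Steinhaus set: every congruent copy of `E` contains exactly `n` lattice points. -/
def IsSteinhaus (n : ℕ) (E : Set ℂ) : Prop := ∀ g : ℂ ≃ᵢ ℂ, (g '' E ∩ Z2).encard = n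

theorem aux (n : ℕ) (hn : 1 ≤ n) (E : Set ℂ) (hE : BaireMeasurableSet E) :
    ∃ a b : ℂ, ‖a‖ = 1 ∧ ((fun z : ℂ => a * z + b) '' E ∩ Z2).encard ≠ n := by
  by_contra hcon
  push Not at hcon
  have h : ∀ a y : ℂ, ‖a‖ = 1 → (Pool.Agent.Helper681.NS.Lam E y a).encard = n := by
    intro a y ha
    have ha0 : a ≠ 0 := by
      intro h
      rw [h, norm_zero] at ha
      exact zero_ne_one ha
    have ha' : ‖a⁻¹‖ = 1 := by rw [norm_inv, ha, inv_one]
    rw [← hcon a⁻¹ (-(a⁻¹ * y)) ha']
    congr 1
    ext l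
    constructor
    · rintro ⟨hl, hlE⟩
      refine ⟨⟨y + a * l, hlE, ?_⟩, hl⟩
      simp only
      field_simp
      ring
    · rintro ⟨⟨e, he, hel⟩, hl⟩
      refine ⟨hl, ?_⟩
      have : y + a * l = e := by
        rw [← hel]
        simp only
        field_simp
        ring
      rw [this]
      exact he
  obtain ⟨O, D⟩ := Pool.Agent.Helper681.NS.exists_dat hE h
  exact D.false hn

/-- For every `n ≥ 1`, no set with the property of Baire, in particular no Borel set, is an
`n`-Steinhaus set; already rotations followed by translations suffice to see this. -/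
theorem result (n : ℕ) (hn : 1 ≤ n) (E : Set ℂ) :
    (MeasurableSet E → ¬ IsSteinhaus n E) ∧ (BaireMeasurableSet E → ¬ IsSteinhaus n E) ∧
    (BaireMeasurableSet E →
      ∃ a b : ℂ, ‖a‖ = 1 ∧ ((fun z : ℂ => a * z + b) '' E ∩ Z2).encard ≠ n) := by
  have key : BaireMeasurableSet E → ¬ IsSteinhaus n E := by
    intro hE hS
    obtain ⟨a, b, ha, hab⟩ := aux n hn E hE
    apply hab
    have ha0 : a ≠ 0 := by
      intro h
      rw [h, norm_zero] at ha
      exact zero_ne_one ha
    let g : ℂ ≃ᵢ ℂ := IsometryEquiv.mk' (fun z => a * z + b) (fun z => a⁻¹ * (z - b))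
      (fun z => by rw [mul_inv_cancel_left₀ ha0]; ring)
      (Isometry.of_dist_eq fun z w => by
        rw [dist_eq_norm, dist_eq_norm]
        have : a * z + b - (a * w + b) = a * (z - w) := by ring
        rw [this, norm_mul, ha, one_mul])
    exact hS g
  exact ⟨fun hE => key hE.baireMeasurableSet, key, aux n hn E⟩

end Pool.Agent.Results.MP_b9430d_co.BaireProperty
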